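import Mathlib

set_option autoImplicit false

namespace Pool.Agent.Results.MP_7c4268_al.Counterexample

open FreeAbelianGroup

/-- The surviving relations `r(g,h,k) = {h,k} {g,hk} {g,h}⁻¹ {gh,k}⁻¹` on `S`, as elements of the
free abelian group on `S` (written additively). -/
def rels {G : Type} [CommGroup G] (S : Set (Sym2 G)) : Set (FreeAbelianGroup S) :=
  {x | ∃ (g h k : G) (h1 : s(h, k) ∈ S) (h2 : s(g, h * k) ∈ S) (h3 : s(g, h) ∈ S)
    (h4 : s(g * h, k) ∈ S), x = of ⟨_, h1⟩ + of ⟨_, h2⟩ - of ⟨_, h3⟩ - of ⟨_, h4⟩}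

abbrev C := Multiplicative (ZMod 13)

def L : List (ZMod 13 × ZMod 13) :=
  [(0, 6), (0, 7), (0, 8), (1, 4), (1, 7), (1, 10), (2, 2), (2, 3), (2, 4), (2, 9), (2, 12), (3, 4), (3, 7), (3, 12), (4, 4), (4, 6), (4, 9), (4, 12), (5, 12), (6, 9), (6, 11), (7, 10), (7, 12), (8, 9), (8, 10), (10, 10), (10, 11), (10, 12)]

def inS (a b : ZMod 13) : Bool := decide ((a, b) ∈ L) || decide ((b, a) ∈ L)

def ph (a b : ZMod 13) : ZMod 2 :=
  if (a, b) ∈ [((3 : ZMod 13), (4 : ZMod 13)), (4, 3), (3, 7), (7, 3), (7, 12), (12, 7)] then 1 else 0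

def S : Set (Sym2 C) :=
  {p | Sym2.lift ⟨fun a b : C => inS a.toAdd b.toAdd, fun _ _ => Bool.or_comm _ _⟩ p = true}

lemma ph_symm : ∀ a b, ph a b = ph b a := by decide +kernel

def φ : FreeAbelianGroup S →+ ZMod 2 :=
  lift fun p => Sym2.lift ⟨fun a b : C => ph a.toAdd b.toAdd, fun _ _ => ph_symm _ _⟩ p.1

lemma cocycle : ∀ g h k : ZMod 13, inS h k = true → inS g (h + k) = true → inS g h = true →
    inS (g + h) k = true → ph h k + ph g (h + k) - ph g h - ph (g + h) k = 0 := by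
  decide +kernel

noncomputable def e (a b : ZMod 13) : FreeAbelianGroup S :=
  if h : inS a b = true then of ⟨s(Multiplicative.ofAdd a, Multiplicative.ofAdd b), h⟩ else 0

lemma e_symm (a b : ZMod 13) : e a b = e b a := by
  have : inS a b = inS b a := Bool.or_comm _ _
  unfold e
  by_cases h : inS a b = true
  · rw [dif_pos h, dif_pos (this ▸ h)]
    congr 2
    exact Sym2.eq_swap
  · rw [dif_neg h, dif_neg (this ▸ h)]

lemma φ_e (a b : ZMod 13) (h : inS a b = true) : φ (e a b) = ph a b := by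
  rw [e, dif_pos h, φ, lift_apply_of]
  rfl

lemma rel (g h k a1 a2 b1 b2 c1 c2 d1 d2 : ZMod 13)
    (H : inS h k = true ∧ inS g (h + k) = true ∧ inS g h = true ∧ inS (g + h) k = true ∧
      (h = a1 ∧ k = a2 ∨ h = a2 ∧ k = a1) ∧ (g = b1 ∧ h + k = b2 ∨ g = b2 ∧ h + k = b1) ∧
      (g = c1 ∧ h = c2 ∨ g = c2 ∧ h = c1) ∧ (g + h = d1 ∧ k = d2 ∨ g + h = d2 ∧ k = d1)) :
    e a1 a2 + e b1 b2 - e c1 c2 - e d1 d2 ∈ AddSubgroup.closure (rels S) := by
  obtain ⟨h1, h2, h3, h4, a, b, c, d⟩ := H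
  have aux : ∀ x y u v : ZMod 13, (x = u ∧ y = v ∨ x = v ∧ y = u) → e u v = e x y := by
    rintro x y u v (⟨rfl, rfl⟩ | ⟨rfl, rfl⟩)
    exacts [rfl, e_symm _ _]
  rw [aux _ _ _ _ a, aux _ _ _ _ b, aux _ _ _ _ c, aux _ _ _ _ d]
  refine AddSubgroup.subset_closure ⟨Multiplicative.ofAdd g, Multiplicative.ofAdd h,
    Multiplicative.ofAdd k, h1, h2, h3, h4, ?_⟩
  rw [e, e, e, e, dif_pos h1, dif_pos h2, dif_pos h3, dif_pos h4]
  rfl

/-- For the cyclic group of order 13 there is a set `S` of unordered pairs such that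
`F_S / ⟨R_S⟩` is not free abelian. -/
theorem result : ∃ S : Set (Sym2 (Multiplicative (ZMod 13))),
    ¬ Module.Free ℤ (FreeAbelianGroup S ⧸ AddSubgroup.closure (rels S)) := by
  refine ⟨S, fun hfree => ?_⟩
  let z : FreeAbelianGroup S :=
    e 2 4 + e 2 9 + e 4 4 + e 5 12 + e 6 11 + e 8 10 - e 0 6 - e 2 2 - e 3 7 - e 4 9 - e 4 12 - e 10 10
  have h2 : (2 : ℤ) • z ∈ AddSubgroup.closure (rels S) := by
    have r0 := rel 3 7 10 7 10 3 4 3 7 10 10 (by decide)
    have r1 := rel 4 3 12 3 12 2 4 3 4 7 12 (by decide)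
    have r2 := rel 4 6 11 6 11 4 4 4 6 10 11 (by decide)
    have r3 := rel 4 9 8 8 9 4 4 4 9 0 8 (by decide)
    have r4 := rel 4 9 6 6 9 2 4 4 9 0 6 (by decide)
    have r5 := rel 4 12 2 2 12 1 4 4 12 2 3 (by decide)
    have r6 := rel 4 12 7 7 12 4 6 4 12 3 7 (by decide)
    have r7 := rel 6 9 2 2 9 6 11 6 9 2 2 (by decide)
    have r8 := rel 12 3 2 2 3 5 12 3 12 2 2 (by decide)
    have r9 := rel 12 7 0 0 7 7 12 7 12 0 6 (by decide)
    have r10 := rel 12 10 8 8 10 5 12 10 12 8 9 (by decide)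
    have r11 := rel 2 12 10 10 12 2 9 2 12 1 10 (by decide)
    have r12 := rel 0 7 1 1 7 0 8 0 7 1 7 (by decide)
    have r13 := rel 10 7 1 1 7 8 10 7 10 1 4 (by decide)
    have r14 := rel 10 10 1 1 10 10 11 10 10 1 7 (by decide)
    have := add_mem (add_mem (add_mem (add_mem (add_mem (add_mem (add_mem (add_mem (add_mem (add_mem (add_mem (add_mem (add_mem (add_mem r0 r1) r2) r3) r4) r5) r6) r7) r8) r9) r10) r11) r12) r13) r14
    convert this using 1
    simp only [z]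
    abel
  have h3 : z ∈ AddSubgroup.closure (rels S) := by
    have h4 : (2 : ℤ) • (z : FreeAbelianGroup S ⧸ AddSubgroup.closure (rels S)) = 0 :=
      (QuotientAddGroup.eq_zero_iff _).mpr h2
    exact (QuotientAddGroup.eq_zero_iff _).mp ((smul_eq_zero.mp h4).resolve_left two_ne_zero)
  have h5 : AddSubgroup.closure (rels S) ≤ φ.ker := by
    rw [AddSubgroup.closure_le]
    rintro _ ⟨g, h, k, h1, h2, h3, h4, rfl⟩
    simp only [SetLike.mem_coe, AddMonoidHom.mem_ker, map_sub, map_add, φ, lift_apply_of]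
    exact cocycle _ _ _ h1 h2 h3 h4
  have h6 : φ z = 0 := h5 h3
  simp only [z, map_sub, map_add] at h6
  repeat rw [φ_e _ _ (by decide)] at h6
  revert h6
  decide

end Pool.Agent.Results.MP_7c4268_al.Counterexample
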